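import Pool.Agent.H87.D3.Targets3

/-! Helper lemmas for the row LO1 of the board d3h (MP_2697e3_an). -/

namespace Pool.Agent.H90.D3

open MeasureTheory Metric Set Filter Topology Pool.Agent.H87.SN Pool.Agent.H87.SH Pool.Agent.H87.AX
open Pool.Agent.H87.D3
open scoped ContDiff RealInnerProductSpace ENNReal

noncomputable section

theorem rho_nn (x : V) : 0 ≤ rho x := Real.sqrt_nonneg _

theorem rho_sq (x : V) : rho x ^ 2 = x 0 ^ 2 + x 1 ^ 2 := Real.sq_sqrt (by positivity)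

theorem nrm_sq (x : V) : ‖x‖ ^ 2 = x 0 ^ 2 + x 1 ^ 2 + x 2 ^ 2 := by
  rw [EuclideanSpace.norm_sq_eq]
  simp [Fin.sum_univ_three]

theorem nrm_sq' (x : V) : ‖x‖ ^ 2 = rho x ^ 2 + x 2 ^ 2 := by rw [nrm_sq, rho_sq]

theorem rho_le (x : V) : rho x ≤ ‖x‖ :=
  abs_le_of_sq_le_sq' (by rw [nrm_sq']; nlinarith [sq_nonneg (x 2)]) (norm_nonneg _) |>.2

theorem z_le (x : V) : |x 2| ≤ ‖x‖ := by
  apply abs_le_of_sq_le_sq _ (norm_nonneg _)
  rw [nrm_sq']; nlinarith [sq_nonneg (rho x)]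

theorem nrm_le (x : V) : ‖x‖ ≤ rho x + |x 2| := by
  apply abs_le_of_sq_le_sq' _ (add_nonneg (rho_nn x) (abs_nonneg _)) |>.2
  rw [nrm_sq', add_sq, sq_abs]
  nlinarith [mul_nonneg (rho_nn x) (abs_nonneg (x 2))]

theorem rho_tri (x y : V) : rho x ≤ rho y + ‖x - y‖ := by
  apply abs_le_of_sq_le_sq' _ (add_nonneg (rho_nn y) (norm_nonneg _)) |>.2
  have h1 := rho_le (x - y)
  have h2 := rho_sq (x - y)
  have h3 := rho_sq x
  have h4 := rho_sq y
  simp only [PiLp.sub_apply] at h2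
  have h5 : x 0 * y 0 + x 1 * y 1 ≤ rho x * rho y := by
    apply abs_le_of_sq_le_sq' _ (mul_nonneg (rho_nn x) (rho_nn y)) |>.2
    rw [mul_pow, h3, h4]
    nlinarith [sq_nonneg (x 0 * y 1 - x 1 * y 0)]
  have h6 : (rho x - rho y) ^ 2 ≤ rho (x - y) ^ 2 := by
    rw [h2]; nlinarith
  have h7 : rho x - rho y ≤ rho (x - y) :=
    abs_le_of_sq_le_sq' h6 (rho_nn _) |>.2
  have h8 := rho_nn x
  nlinarith

theorem cont_rho : Continuous (fun x : V => rho x) := by
  unfold rho; fun_prop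

theorem cont_z : Continuous (fun x : V => |x 2|) := by fun_prop

theorem cont_hd (y0 y1 s0 s1 : ℝ) : Continuous (fun x : V => hd y0 y1 s0 s1 x) := by
  unfold hd; fun_prop

theorem cont_dl (a T : V) : Continuous (fun x : V => dl a T x) := by
  unfold dl; fun_prop

theorem hd_nn (y0 y1 s0 s1 : ℝ) (x : V) : 0 ≤ hd y0 y1 s0 s1 x := by unfold hd; positivity

/-- The horizontal distance to the line and the distance to the axis. -/
theorem hd_rho (y0 y1 s0 s1 : ℝ) (x : V) (q : ℝ) (hq : |y0| + |y1| + (|s0| + |s1|) * |x 2| ≤ q) :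
    Real.sqrt (hd y0 y1 s0 s1 x) ≤ rho x + q ∧ rho x ≤ Real.sqrt (hd y0 y1 s0 s1 x) + q := by
  set p0 := y0 + s0 * x 2 with hp0
  set p1 := y1 + s1 * x 2 with hp1
  have e0 : |p0| ≤ |y0| + |s0| * |x 2| := by
    rw [hp0, ← abs_mul]; exact abs_add_le _ _
  have e1 : |p1| ≤ |y1| + |s1| * |x 2| := by
    rw [hp1, ← abs_mul]; exact abs_add_le _ _
  have e2 : |p0| + |p1| ≤ q := by nlinarith
  have hq0 : 0 ≤ q := le_trans (by positivity) e2
  have hR := rho_nn x
  have hR2 := rho_sq x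
  have hS := Real.sqrt_nonneg (hd y0 y1 s0 s1 x)
  have hS2 := Real.sq_sqrt (hd_nn y0 y1 s0 s1 x)
  set S := Real.sqrt (hd y0 y1 s0 s1 x) with hSd
  have hH : hd y0 y1 s0 s1 x = (x 0 - p0) ^ 2 + (x 1 - p1) ^ 2 := rfl
  rw [hH] at hS2
  have a0 : |x 0| ≤ rho x := by
    apply abs_le_of_sq_le_sq _ hR; rw [hR2]; nlinarith [sq_nonneg (x 1)]
  have a1 : |x 1| ≤ rho x := by
    apply abs_le_of_sq_le_sq _ hR; rw [hR2]; nlinarith [sq_nonneg (x 0)]
  have b0 : |x 0 - p0| ≤ S := by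
    apply abs_le_of_sq_le_sq _ hS; rw [hS2]; nlinarith [sq_nonneg (x 1 - p1)]
  have b1 : |x 1 - p1| ≤ S := by
    apply abs_le_of_sq_le_sq _ hS; rw [hS2]; nlinarith [sq_nonneg (x 0 - p0)]
  have hpp : p0 ^ 2 + p1 ^ 2 ≤ q ^ 2 := by
    have : p0 ^ 2 + p1 ^ 2 ≤ (|p0| + |p1|) ^ 2 := by
      nlinarith [mul_nonneg (abs_nonneg p0) (abs_nonneg p1), sq_abs p0, sq_abs p1]
    exact this.trans (pow_le_pow_left₀ (by positivity) e2 2)
  constructor
  · apply abs_le_of_sq_le_sq' _ (add_nonneg hR hq0) |>.2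
    have c0 : -(x 0 * p0) ≤ rho x * |p0| := by
      have : |x 0 * p0| ≤ rho x * |p0| := by
        rw [abs_mul]; exact mul_le_mul_of_nonneg_right a0 (abs_nonneg _)
      exact (neg_le_abs _).trans this
    have c1 : -(x 1 * p1) ≤ rho x * |p1| := by
      have : |x 1 * p1| ≤ rho x * |p1| := by
        rw [abs_mul]; exact mul_le_mul_of_nonneg_right a1 (abs_nonneg _)
      exact (neg_le_abs _).trans this
    have c2 : rho x * (|p0| + |p1|) ≤ rho x * q := mul_le_mul_of_nonneg_left e2 hR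
    nlinarith
  · apply abs_le_of_sq_le_sq' _ (add_nonneg hS hq0) |>.2
    have c0 : (x 0 - p0) * p0 ≤ S * |p0| := by
      have : |(x 0 - p0) * p0| ≤ S * |p0| := by
        rw [abs_mul]; exact mul_le_mul_of_nonneg_right b0 (abs_nonneg _)
      exact (le_abs_self _).trans this
    have c1 : (x 1 - p1) * p1 ≤ S * |p1| := by
      have : |(x 1 - p1) * p1| ≤ S * |p1| := by
        rw [abs_mul]; exact mul_le_mul_of_nonneg_right b1 (abs_nonneg _)
      exact (le_abs_self _).trans this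
    have c2 : S * (|p0| + |p1|) ≤ S * q := mul_le_mul_of_nonneg_left e2 hS
    nlinarith

/-- The volume of a thin cylinder. -/
theorem vol_cyl (h : ℝ) (hh : 0 < h) :
    volume {y : V | rho y < h / 4 ∧ |y 2| < 1} ≤ ENNReal.ofReal (h ^ 2) := by
  have h1 : {y : V | rho y < h / 4 ∧ |y 2| < 1} ⊆
      (WithLp.ofLp : V → (Fin (1 + 2) → ℝ)) ⁻¹'
        (Set.pi univ (fun i => Ioo (-(![h / 4, h / 4, 1] i)) (![h / 4, h / 4, 1] i))) := by
    intro y hy
    have a0 : |y 0| ≤ rho y := by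
      apply abs_le_of_sq_le_sq _ (rho_nn y); rw [rho_sq]; nlinarith [sq_nonneg (y 1)]
    have a1 : |y 1| ≤ rho y := by
      apply abs_le_of_sq_le_sq _ (rho_nn y); rw [rho_sq]; nlinarith [sq_nonneg (y 0)]
    have hy1 := hy.1
    have hy2 := hy.2
    rw [mem_preimage, mem_univ_pi]
    intro i
    rw [mem_Ioo, ← abs_lt]
    fin_cases i
    · exact lt_of_le_of_lt a0 hy1
    · exact lt_of_le_of_lt a1 hy1
    · exact hy2
  refine (measure_mono h1).trans ?_
  rw [(PiLp.volume_preserving_ofLp (Fin (1 + 2))).measure_preimage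
    (MeasurableSet.univ_pi (fun i => measurableSet_Ioo)).nullMeasurableSet]
  rw [Real.volume_pi_Ioo]
  rw [← ENNReal.ofReal_prod_of_nonneg]
  · apply ENNReal.ofReal_le_ofReal
    rw [Fin.prod_univ_three]
    simp
    nlinarith
  · intro i _
    fin_cases i
    · simp; positivity
    · simp; positivity
    · simp

end

end Pool.Agent.H90.D3
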