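import Pool.Agent.H87.D3.Targets3
import Pool.Agent.H90.D3.LO1a

/-! Helper lemmas for the row LO1 of the board d3h (MP_2697e3_an), part 2. -/

namespace Pool.Agent.H90.D3

open MeasureTheory Metric Set Filter Topology Pool.Agent.H87.SN Pool.Agent.H87.SH Pool.Agent.H87.AX
open Pool.Agent.H87.D3
open scoped ContDiff RealInnerProductSpace ENNReal

noncomputable section

theorem en_nn {m : ℕ} (u : V → E m) (x : V) : 0 ≤ en u x := by
  unfold en nsq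
  exact Finset.sum_nonneg (fun i _ => by positivity)

/-- The norm of the base point. -/
theorem base_norm (a : V) (y0 y1 h : ℝ) (ha0 : a 0 = y0) (ha1 : a 1 = y1) (ha2 : a 2 = 0)
    (hy : |y0| + |y1| ≤ h / 50) : ‖a‖ ≤ h / 50 := by
  have h1 : rho a ≤ |y0| + |y1| := by
    have h2 := rho_sq a
    rw [ha0, ha1] at h2
    apply abs_le_of_sq_le_sq' _ (add_nonneg (abs_nonneg _) (abs_nonneg _)) |>.2
    rw [h2]
    nlinarith [sq_abs y0, sq_abs y1, mul_nonneg (abs_nonneg y0) (abs_nonneg y1)]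
  have h2 := nrm_le a
  rw [ha2, abs_zero] at h2
  linarith

/-- The hypothesis of the three scale inequality. -/
theorem cond_K {m : ℕ} (u : V → E m) (U : Set V) (a T : V) (y0 y1 s0 s1 h rc δ : ℝ) (hh : 0 < h)
    (hrc : rc ≤ h / 100) (hy : |y0| + |y1| ≤ h / 50) (hs : |s0| + |s1| ≤ h / 50)
    (hlin : ∀ x : V, 0 ≤ hd y0 y1 s0 s1 x ∧ dl a T x ≤ hd y0 y1 s0 s1 x ∧
      hd y0 y1 s0 s1 x ≤ 2 * dl a T x)
    (hU : ∀ x ∈ ball (0 : V) (5 / 8), rc ≤ rho x → x ∈ U ∧ rho x * Real.sqrt (en u x) ≤ δ / 2)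
    (x : V) (hx : x ∈ ball (0 : V) (1 / 2)) (hdl : h ^ 2 / 4 < dl a T x) :
    x ∈ U ∧ dl a T x * en u x ≤ δ ^ 2 := by
  have hxn : ‖x‖ < 1 / 2 := by simpa using hx
  have hz : |x 2| ≤ 1 / 2 := (z_le x).trans hxn.le
  obtain ⟨h1, -⟩ := hd_rho y0 y1 s0 s1 x (h / 50 + h / 50 * (1 / 2)) (by
    have : (|s0| + |s1|) * |x 2| ≤ h / 50 * (1 / 2) :=
      mul_le_mul hs hz (abs_nonneg _) (by positivity)
    linarith)
  have h3 : h / 2 < Real.sqrt (hd y0 y1 s0 s1 x) := by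
    apply Real.lt_sqrt_of_sq_lt
    have := (hlin x).2.1
    linarith
  have h4 : h / 4 < rho x := by linarith
  obtain ⟨hxU, hxe⟩ := hU x (by rw [mem_ball_zero_iff]; linarith) (by linarith)
  refine ⟨hxU, ?_⟩
  have h5 : Real.sqrt (hd y0 y1 s0 s1 x) ≤ 1.2 * rho x := by linarith
  have h6 : hd y0 y1 s0 s1 x ≤ 1.44 * rho x ^ 2 := by
    have h7 := Real.sq_sqrt (hd_nn y0 y1 s0 s1 x)
    rw [← h7]
    refine (pow_le_pow_left₀ (Real.sqrt_nonneg _) h5 2).trans (le_of_eq ?_)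
    ring
  have h9 : (rho x * Real.sqrt (en u x)) ^ 2 ≤ (δ / 2) ^ 2 :=
    pow_le_pow_left₀ (mul_nonneg (rho_nn x) (Real.sqrt_nonneg _)) hxe 2
  rw [mul_pow, Real.sq_sqrt (en_nn u x)] at h9
  have h10 := en_nn u x
  have h11 : dl a T x * en u x ≤ 1.44 * rho x ^ 2 * en u x :=
    mul_le_mul_of_nonneg_right ((hlin x).2.1.trans h6) h10
  have h12 : 0 ≤ δ ^ 2 := sq_nonneg δ
  linarith

/-- The small window. -/
theorem set_h (a T : V) (y0 y1 s0 s1 h : ℝ) (hh : 0 < h) (ha2 : a 2 = 0)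
    (hy : |y0| + |y1| ≤ h / 50) (hs : |s0| + |s1| ≤ h / 50)
    (hlin : ∀ x : V, 0 ≤ hd y0 y1 s0 s1 x ∧ dl a T x ≤ hd y0 y1 s0 s1 x ∧
      hd y0 y1 s0 s1 x ≤ 2 * dl a T x) :
    {x : V | x ∈ ball a (1 / 8) ∧ dl a T x < (2 * h) ^ 2} ⊆
      {x : V | rho x < 3 * h ∧ |x 2| ≤ 1 / 8} := by
  intro x hx
  have hx1 : dist x a < 1 / 8 := hx.1
  have hx2 : dl a T x < (2 * h) ^ 2 := hx.2
  rw [dist_eq_norm] at hx1
  have hz : |x 2| < 1 / 8 := by
    have := z_le (x - a)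
    simp only [PiLp.sub_apply, ha2, sub_zero] at this
    exact lt_of_le_of_lt this hx1
  refine ⟨?_, hz.le⟩
  have h1 := (hd_rho y0 y1 s0 s1 x (h / 50 + h / 50 * (1 / 8)) (by
    have : (|s0| + |s1|) * |x 2| ≤ h / 50 * (1 / 8) :=
      mul_le_mul hs hz.le (abs_nonneg _) (by positivity)
    linarith)).2
  have h2 : Real.sqrt (hd y0 y1 s0 s1 x) ≤ 2.9 * h := by
    rw [Real.sqrt_le_iff]
    refine ⟨by positivity, ?_⟩
    have h3 := (hlin x).2.2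
    have h4 : 0 ≤ h ^ 2 := sq_nonneg h
    have h5 : (2 * h) ^ 2 = 4 * h ^ 2 := by ring
    have h6 : (2.9 * h) ^ 2 = 8.41 * h ^ 2 := by ring
    rw [h6]; rw [h5] at hx2
    linarith
  show rho x < 3 * h
  linarith

/-- Points of the far ball are far from the line. -/
theorem far_pt (a T x₀ : V) (y0 y1 s0 s1 h σ : ℝ) (hh : 0 < h) (hhσ : 64 * h ≤ σ) (hσ : σ ≤ 1 / 256)
    (hy : |y0| + |y1| ≤ h / 50) (hs : |s0| + |s1| ≤ h / 50)
    (hlin : ∀ x : V, 0 ≤ hd y0 y1 s0 s1 x ∧ dl a T x ≤ hd y0 y1 s0 s1 x ∧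
      hd y0 y1 s0 s1 x ≤ 2 * dl a T x) (hx₀ : ‖x₀‖ < σ) (hq : σ / 64 ≤ rho x₀)
    (x : V) (hx : x ∈ ball x₀ (σ / 128)) : (σ / 256) ^ 2 ≤ dl a T x := by
  have hx1 : dist x x₀ < σ / 128 := hx
  rw [dist_eq_norm] at hx1
  have h1 := rho_tri x₀ x
  rw [norm_sub_rev] at h1
  have h2 : ‖x‖ ≤ ‖x - x₀‖ + ‖x₀‖ := by
    have := norm_add_le (x - x₀) x₀
    simpa using this
  have hz : |x 2| ≤ 1 := by
    have := z_le x
    linarith
  have h3 := (hd_rho y0 y1 s0 s1 x (h / 50 + h / 50 * 1) (by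
    have : (|s0| + |s1|) * |x 2| ≤ h / 50 * 1 :=
      mul_le_mul hs hz (abs_nonneg _) (by positivity)
    linarith)).2
  have h4 : 0.007 * σ ≤ Real.sqrt (hd y0 y1 s0 s1 x) := by linarith
  have h5 : (0.007 * σ) ^ 2 ≤ hd y0 y1 s0 s1 x := by
    have h7 := Real.sq_sqrt (hd_nn y0 y1 s0 s1 x)
    rw [← h7]
    exact pow_le_pow_left₀ (by linarith) h4 2
  have h6 := (hlin x).2.2
  have h8 : (0.007 * σ) ^ 2 = 0.000049 * σ ^ 2 := by ring
  have h9 : (σ / 256) ^ 2 = (1 / 65536) * σ ^ 2 := by ring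
  have h10 : 0 ≤ σ ^ 2 := sq_nonneg σ
  rw [h8] at h5
  rw [h9]
  linarith

/-- The mass of the far ball. -/
theorem far_mass {m : ℕ} (G : V → V →L[ℝ] E m) [IsFiniteMeasure (mu G)] (σ : ℝ) (hσ : 0 < σ)
    (x₀ : V) (I X : ℝ≥0∞) (hI : ENNReal.ofReal ((σ / 256) ^ 2) * mu G (ball x₀ (σ / 128)) ≤ I)
    (hX : ENNReal.ofReal ((σ ^ 3)⁻¹) * I ≤ X) :
    ENNReal.ofReal (th G x₀ (σ / 128)) ≤ ENNReal.ofReal (2 ^ 23) * X := by
  have hth2 : ENNReal.ofReal (th G x₀ (σ / 128)) =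
      ENNReal.ofReal (2 ^ 23) * (ENNReal.ofReal ((σ ^ 3)⁻¹) *
        (ENNReal.ofReal ((σ / 256) ^ 2) * mu G (ball x₀ (σ / 128)))) := by
    unfold th
    have h1 : mu G (ball x₀ (σ / 128)) = ENNReal.ofReal ((mu G).real (ball x₀ (σ / 128))) :=
      (ofReal_measureReal (μ := mu G) (s := ball x₀ (σ / 128))).symm
    rw [h1, ← ENNReal.ofReal_mul (by positivity), ← ENNReal.ofReal_mul (by positivity),
      ← ENNReal.ofReal_mul (by positivity)]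
    congr 1
    field_simp
    ring
  rw [hth2]
  exact mul_le_mul' le_rfl ((mul_le_mul' le_rfl hI).trans hX)

/-- The error term. -/
theorem err_term (P CM h δ₂ J I CA κ : ℝ) (B : ℝ≥0∞) (hP : 0 ≤ P)
    (hδ : 0 < δ₂) (hJ : J = CM / h * I) (hI0 : 0 ≤ I) (hI1 : I ≤ δ₂)
    (hI2 : ENNReal.ofReal I ≤ ENNReal.ofReal (3 * CA / h ^ 2) * B)
    (hδ' : P * ((CM / h) ^ 2 * (3 * CA / h ^ 2) * δ₂) ≤ κ) :
    ENNReal.ofReal (P * J ^ 2) ≤ ENNReal.ofReal κ * B := by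
  have hJ2 : J ^ 2 ≤ (CM / h) ^ 2 * δ₂ * I := by
    have : J ^ 2 = (CM / h) ^ 2 * (I * I) := by rw [hJ]; ring
    rw [this, mul_assoc]
    exact mul_le_mul_of_nonneg_left (mul_le_mul_of_nonneg_right hI1 hI0) (by positivity)
  have hp2 : 0 ≤ P * ((CM / h) ^ 2 * δ₂) := by positivity
  calc ENNReal.ofReal (P * J ^ 2)
      ≤ ENNReal.ofReal (P * ((CM / h) ^ 2 * δ₂ * I)) :=
        ENNReal.ofReal_le_ofReal (mul_le_mul_of_nonneg_left hJ2 hP)
    _ = ENNReal.ofReal (P * ((CM / h) ^ 2 * δ₂)) * ENNReal.ofReal I := by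
        rw [← ENNReal.ofReal_mul hp2]; congr 1; ring
    _ ≤ ENNReal.ofReal (P * ((CM / h) ^ 2 * δ₂)) * (ENNReal.ofReal (3 * CA / h ^ 2) * B) :=
        mul_le_mul' le_rfl hI2
    _ = ENNReal.ofReal (P * ((CM / h) ^ 2 * (3 * CA / h ^ 2) * δ₂)) * B := by
        rw [← mul_assoc, ← ENNReal.ofReal_mul hp2]; congr 2; ring
    _ ≤ ENNReal.ofReal κ * B := mul_le_mul' (ENNReal.ofReal_le_ofReal hδ') le_rfl

/-- The annulus is in the ball of radius two; its energy. -/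
theorem ann_eq {m : ℕ} (G : V → V →L[ℝ] E m) [IsFiniteMeasure (mu G)] (h : ℝ) (hh1 : h ≤ 1 / 64)
    (hM : ∀ S : Set V, MeasurableSet S → S ⊆ ball 0 2 →
      IntegrableOn (fun x => nsq (G x)) S ∧ (mu G).real S = ∫ x in S, nsq (G x)) :
    ENNReal.ofReal (In G h (3 / 8)) =
      mu G {x : V | h < rho x ∧ rho x < 2 * h ∧ |x 2| < 3 / 8} := by
  have hSm : MeasurableSet {x : V | h < rho x ∧ rho x < 2 * h ∧ |x 2| < 3 / 8} :=
    (isOpen_lt continuous_const cont_rho).measurableSet.inter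
      ((isOpen_lt cont_rho continuous_const).measurableSet.inter
        (isOpen_lt cont_z continuous_const).measurableSet)
  have hSs : {x : V | h < rho x ∧ rho x < 2 * h ∧ |x 2| < 3 / 8} ⊆ ball (0 : V) 2 := by
    intro x hx
    rw [mem_ball_zero_iff]
    have := nrm_le x
    have h1 := hx.2.1
    have h2 := hx.2.2
    linarith
  have h3 := (hM _ hSm hSs).2
  unfold In
  rw [← h3]
  exact ofReal_measureReal

end

end Pool.Agent.H90.D3
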