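import Pool.Agent.H87.D3.Targets3
import Pool.Agent.H90.D3.LO1a

/-! Helper lemmas for the row LO1 of the board d3h (MP_2697e3_an). -/

namespace Pool.Agent.H90.D3

open MeasureTheory Metric Set Filter Topology Pool.Agent.H87.SN Pool.Agent.H87.SH Pool.Agent.H87.AX
open Pool.Agent.H87.D3
open scoped ContDiff RealInnerProductSpace ENNReal

noncomputable section

/-- The constant `δ₂`. -/
theorem choose_d2 (κ τ A B : ℝ) (hκ : 0 < κ) (hτ : 0 ≤ τ) (hA : 0 ≤ A) (hB : 0 ≤ B) :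
    ∃ δ : ℝ, 0 < δ ∧ (3 * A * κ + τ * (A / 8)) * (B * δ) ≤ κ := by
  refine ⟨κ / ((3 * A * κ + τ * (A / 8)) * B + 1), by positivity, ?_⟩
  have hp : 0 ≤ (3 * A * κ + τ * (A / 8)) * B := by positivity
  have : (3 * A * κ + τ * (A / 8)) * (B * (κ / ((3 * A * κ + τ * (A / 8)) * B + 1))) =
      κ * (((3 * A * κ + τ * (A / 8)) * B) / ((3 * A * κ + τ * (A / 8)) * B + 1)) := by
    field_simp
  rw [this]
  have h1 : ((3 * A * κ + τ * (A / 8)) * B) / ((3 * A * κ + τ * (A / 8)) * B + 1) ≤ 1 := by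
    rw [div_le_one (by positivity)]; linarith
  nlinarith

/-- The final sum. -/
theorem final_sum (κ τ CK A J2 : ℝ) (B b X Vh V1 : ℝ≥0∞) (hκ : 0 < κ) (hτ : 0 ≤ τ) (hCK : 0 ≤ CK)
    (hA : 0 ≤ A) (hJ : 0 ≤ J2)
    (hJB : ENNReal.ofReal ((3 * A * κ + τ * (A / 8)) * J2) ≤ ENNReal.ofReal κ * B)
    (hVh : Vh ≤ ENNReal.ofReal (3 * A) * B + ENNReal.ofReal (3 * A * J2))
    (hV1 : V1 ≤ ENNReal.ofReal A * b + ENNReal.ofReal (A / 8 * J2))
    (hX : X ≤ ENNReal.ofReal CK * (ENNReal.ofReal κ * Vh + ENNReal.ofReal τ * V1)) :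
    X ≤ ENNReal.ofReal (CK * (3 * A + 1)) * (ENNReal.ofReal κ * B + ENNReal.ofReal τ * b) := by
  refine hX.trans ?_
  rw [ENNReal.ofReal_mul hCK, mul_assoc]
  refine mul_le_mul' le_rfl ?_
  have h1 : ENNReal.ofReal κ * Vh ≤ ENNReal.ofReal (3 * A) * (ENNReal.ofReal κ * B) +
      ENNReal.ofReal (3 * A * κ * J2) := by
    refine (mul_le_mul' le_rfl hVh).trans (le_of_eq ?_)
    rw [mul_add, ← ENNReal.ofReal_mul hκ.le]
    congr 1
    · ring
    · congr 1; ring
  have h2 : ENNReal.ofReal τ * V1 ≤ ENNReal.ofReal A * (ENNReal.ofReal τ * b) +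
      ENNReal.ofReal (τ * (A / 8) * J2) := by
    refine (mul_le_mul' le_rfl hV1).trans (le_of_eq ?_)
    rw [mul_add, ← ENNReal.ofReal_mul hτ]
    congr 1
    · ring
    · congr 1; ring
  have h3 : ENNReal.ofReal (3 * A * κ * J2) + ENNReal.ofReal (τ * (A / 8) * J2) ≤
      ENNReal.ofReal κ * B := by
    rw [← ENNReal.ofReal_add (by positivity) (by positivity)]
    refine le_trans (le_of_eq ?_) hJB
    congr 1; ring
  have h4 : ENNReal.ofReal A ≤ ENNReal.ofReal (3 * A) := ENNReal.ofReal_le_ofReal (by linarith)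
  calc ENNReal.ofReal κ * Vh + ENNReal.ofReal τ * V1
      ≤ (ENNReal.ofReal (3 * A) * (ENNReal.ofReal κ * B) + ENNReal.ofReal (3 * A * κ * J2)) +
        (ENNReal.ofReal A * (ENNReal.ofReal τ * b) + ENNReal.ofReal (τ * (A / 8) * J2)) :=
        add_le_add h1 h2
    _ = (ENNReal.ofReal (3 * A * κ * J2) + ENNReal.ofReal (τ * (A / 8) * J2)) +
        (ENNReal.ofReal (3 * A) * (ENNReal.ofReal κ * B) +
          ENNReal.ofReal A * (ENNReal.ofReal τ * b)) := by ring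
    _ ≤ ENNReal.ofReal κ * B + (ENNReal.ofReal (3 * A) * (ENNReal.ofReal κ * B) +
          ENNReal.ofReal (3 * A) * (ENNReal.ofReal τ * b)) :=
        add_le_add h3 (add_le_add le_rfl (mul_le_mul' h4 le_rfl))
    _ ≤ (ENNReal.ofReal κ * B + ENNReal.ofReal τ * b) +
        (ENNReal.ofReal (3 * A) * (ENNReal.ofReal κ * B) +
          ENNReal.ofReal (3 * A) * (ENNReal.ofReal τ * b)) :=
        add_le_add le_self_add le_rfl
    _ = ENNReal.ofReal (3 * A + 1) * (ENNReal.ofReal κ * B + ENNReal.ofReal τ * b) := by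
        rw [ENNReal.ofReal_add (by positivity) zero_le_one, ENNReal.ofReal_one]
        ring

/-- The window part. -/
theorem part_h (hAVC : T_AVC) {m : ℕ} (G : V → V →L[ℝ] E m) [SFinite (mu G)]
    (h A J2 : ℝ) (y0 y1 s0 s1 : ℝ) (hh : 0 < h) (hh1 : h ≤ 1 / 64) (hA : 0 ≤ A) (hJ : 0 ≤ J2)
    (hC : ∀ y : V, rho y < h / 4 → |y 2| < 1 / 8 + h →
      ∫⁻ x in ball y (6 * h), ENNReal.ofReal (hd y0 y1 s0 s1 x) ∂(mu G) ≤
        ENNReal.ofReal A * (ENNReal.ofReal (h ^ 3) * bt G y h + ENNReal.ofReal (h * J2))) :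
    ∫⁻ x in {x : V | rho x < 3 * h ∧ |x 2| ≤ 1 / 8}, ENNReal.ofReal (hd y0 y1 s0 s1 x) ∂(mu G) ≤
      ENNReal.ofReal (3 * A) *
        (∫⁻ x in {x : V | rho x < h / 4 ∧ |x 2| < 3 / 8 + h}, bt G x h) +
        ENNReal.ofReal (3 * A * J2) := by
  have hm : Measurable (fun x : V => ENNReal.ofReal (hd y0 y1 s0 s1 x)) :=
    (cont_hd y0 y1 s0 s1).measurable.ennreal_ofReal
  refine (hAVC (mu G) _ h (1 / 8) hm hh hh1 (by norm_num) (by norm_num)).trans ?_
  have hms : MeasurableSet {y : V | rho y < h / 4 ∧ |y 2| < 1 / 8 + h} := by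
    apply MeasurableSet.inter
    · exact (isOpen_lt cont_rho continuous_const).measurableSet
    · exact (isOpen_lt cont_z continuous_const).measurableSet
  have h1 : ∫⁻ y in {y : V | rho y < h / 4 ∧ |y 2| < 1 / 8 + h},
      ∫⁻ x in ball y (6 * h), ENNReal.ofReal (hd y0 y1 s0 s1 x) ∂(mu G) ≤
      ∫⁻ y in {y : V | rho y < h / 4 ∧ |y 2| < 1 / 8 + h},
        ENNReal.ofReal A * (ENNReal.ofReal (h ^ 3) * bt G y h + ENNReal.ofReal (h * J2)) :=
    setLIntegral_mono' hms (fun y hy => hC y hy.1 hy.2)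
  have h2 : ∫⁻ y in {y : V | rho y < h / 4 ∧ |y 2| < 1 / 8 + h},
        ENNReal.ofReal A * (ENNReal.ofReal (h ^ 3) * bt G y h + ENNReal.ofReal (h * J2)) =
      ENNReal.ofReal A * (ENNReal.ofReal (h ^ 3) *
        (∫⁻ y in {y : V | rho y < h / 4 ∧ |y 2| < 1 / 8 + h}, bt G y h) +
        ENNReal.ofReal (h * J2) * volume {y : V | rho y < h / 4 ∧ |y 2| < 1 / 8 + h}) := by
    rw [lintegral_const_mul' _ _ ENNReal.ofReal_ne_top, lintegral_add_right _ measurable_const,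
      lintegral_const_mul' _ _ ENNReal.ofReal_ne_top, lintegral_const, Measure.restrict_apply_univ]
  have h3 : ∫⁻ y in {y : V | rho y < h / 4 ∧ |y 2| < 1 / 8 + h}, bt G y h ≤
      ∫⁻ x in {x : V | rho x < h / 4 ∧ |x 2| < 3 / 8 + h}, bt G x h := by
    apply lintegral_mono_set
    intro y hy
    exact ⟨hy.1, lt_of_lt_of_le hy.2 (by norm_num)⟩
  have h4 : volume {y : V | rho y < h / 4 ∧ |y 2| < 1 / 8 + h} ≤ ENNReal.ofReal (h ^ 2) := by
    refine (measure_mono ?_).trans (vol_cyl h hh)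
    intro y hy
    exact ⟨hy.1, lt_of_lt_of_le hy.2 (by linarith)⟩
  calc ENNReal.ofReal (3 / h ^ 3) * ∫⁻ y in {y : V | rho y < h / 4 ∧ |y 2| < 1 / 8 + h},
      ∫⁻ x in ball y (6 * h), ENNReal.ofReal (hd y0 y1 s0 s1 x) ∂(mu G)
      ≤ ENNReal.ofReal (3 / h ^ 3) * (ENNReal.ofReal A * (ENNReal.ofReal (h ^ 3) *
        (∫⁻ x in {x : V | rho x < h / 4 ∧ |x 2| < 3 / 8 + h}, bt G x h) +
        ENNReal.ofReal (h * J2) * ENNReal.ofReal (h ^ 2))) := by
        refine mul_le_mul' le_rfl (h1.trans (h2.le.trans ?_))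
        gcongr
    _ = (ENNReal.ofReal (3 / h ^ 3) * ENNReal.ofReal A * ENNReal.ofReal (h ^ 3)) *
        (∫⁻ x in {x : V | rho x < h / 4 ∧ |x 2| < 3 / 8 + h}, bt G x h) +
        ENNReal.ofReal (3 / h ^ 3) * ENNReal.ofReal A *
          (ENNReal.ofReal (h * J2) * ENNReal.ofReal (h ^ 2)) := by ring
    _ = _ := by
        rw [← ENNReal.ofReal_mul (by positivity), ← ENNReal.ofReal_mul (by positivity),
          ← ENNReal.ofReal_mul (by positivity), ← ENNReal.ofReal_mul (by positivity)]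
        congr 2
        · congr 1; field_simp
        · field_simp

/-- The energy of the annulus. -/
theorem part_I (hAVC : T_AVC) {m : ℕ} (G : V → V →L[ℝ] E m) [SFinite (mu G)]
    (h A : ℝ) (hh : 0 < h) (hh1 : h ≤ 1 / 64) (hA : 0 ≤ A)
    (hC : ∀ y : V, rho y ≤ h / 4 → |y 2| ≤ 3 / 8 + h →
      mu G (ball y (6 * h) ∩ {x | h < rho x}) ≤ ENNReal.ofReal A * (ENNReal.ofReal h * bt G y h)) :
    mu G {x : V | h < rho x ∧ rho x < 2 * h ∧ |x 2| < 3 / 8} ≤
      ENNReal.ofReal (3 * A / h ^ 2) *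
        (∫⁻ x in {x : V | rho x < h / 4 ∧ |x 2| < 3 / 8 + h}, bt G x h) := by
  have hmh : MeasurableSet {x : V | h < rho x} := (isOpen_lt continuous_const cont_rho).measurableSet
  have hmf : Measurable (({x : V | h < rho x}).indicator (fun _ : V => (1 : ℝ≥0∞))) :=
    measurable_const.indicator hmh
  have hA1 := hAVC (mu G) _ h (3 / 8) hmf hh hh1 (by norm_num) (by norm_num)
  have hms : MeasurableSet {y : V | rho y < h / 4 ∧ |y 2| < 3 / 8 + h} := by
    apply MeasurableSet.inter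
    · exact (isOpen_lt cont_rho continuous_const).measurableSet
    · exact (isOpen_lt cont_z continuous_const).measurableSet
  have h0 : mu G {x : V | h < rho x ∧ rho x < 2 * h ∧ |x 2| < 3 / 8} ≤
      ∫⁻ x in {x : V | rho x < 3 * h ∧ |x 2| ≤ 3 / 8},
        ({x : V | h < rho x}).indicator (fun _ : V => (1 : ℝ≥0∞)) x ∂(mu G) := by
    rw [lintegral_indicator hmh, setLIntegral_const, one_mul, Measure.restrict_apply hmh]
    apply measure_mono
    intro x hx
    exact ⟨hx.1, lt_trans hx.2.1 (by linarith), hx.2.2.le⟩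
  have h1 : ∫⁻ y in {y : V | rho y < h / 4 ∧ |y 2| < 3 / 8 + h},
      ∫⁻ x in ball y (6 * h), ({x : V | h < rho x}).indicator (fun _ : V => (1 : ℝ≥0∞)) x ∂(mu G) ≤
      ∫⁻ y in {y : V | rho y < h / 4 ∧ |y 2| < 3 / 8 + h},
        (ENNReal.ofReal A * ENNReal.ofReal h) * bt G y h := by
    refine setLIntegral_mono' hms (fun y hy => ?_)
    rw [lintegral_indicator hmh, setLIntegral_const, one_mul, Measure.restrict_apply hmh,
      inter_comm, mul_assoc]
    exact hC y hy.1.le hy.2.le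
  rw [lintegral_const_mul' _ _ (ENNReal.mul_ne_top ENNReal.ofReal_ne_top ENNReal.ofReal_ne_top)] at h1
  refine h0.trans (hA1.trans ((mul_le_mul' le_rfl h1).trans (le_of_eq ?_)))
  rw [← mul_assoc, ← ENNReal.ofReal_mul hA, ← ENNReal.ofReal_mul (by positivity)]
  congr 2
  field_simp

end

end Pool.Agent.H90.D3
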