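import Pool.Agent.H87.D3.Targets3
import Pool.Agent.H90.D3.LO1a
import Pool.Agent.H90.D3.LO1b
import Pool.Agent.H90.D3.LO1c

/-! Row LO1 of the board d3h (MP_2697e3_an): the local lemma for the squares of the beta numbers. -/

namespace Pool.Agent.H90.D3

open MeasureTheory Metric Set Filter Topology Pool.Agent.H87.SN Pool.Agent.H87.SH Pool.Agent.H87.AX
open Pool.Agent.H87.D3
open scoped ContDiff RealInnerProductSpace ENNReal

noncomputable section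

/-- The line and the two windows. -/
theorem two_windows (hAVC : T_AVC) {m : ℕ} (G : V → V →L[ℝ] E m) [IsFiniteMeasure (mu G)]
    (a T x₁ : V) (y0 y1 s0 s1 h CC J : ℝ) (hh : 0 < h) (hh1 : h ≤ 1 / 64) (hCC : 0 ≤ CC)
    (ha2 : a 2 = 0) (hna : ‖a‖ ≤ h / 50) (hy : |y0| + |y1| ≤ h / 50) (hs : |s0| + |s1| ≤ h / 50)
    (hx₁ : ‖x₁‖ < 1 / 64)
    (hlin : ∀ x : V, 0 ≤ hd y0 y1 s0 s1 x ∧ dl a T x ≤ hd y0 y1 s0 s1 x ∧
      hd y0 y1 s0 s1 x ≤ 2 * dl a T x)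
    (hC : ∀ (x' : V) (t : ℝ), h ≤ t → t ≤ 1 / 8 →
      rho x' ≤ t / 4 → |x' 2| + 2 * t + t / 4 ≤ 3 / 8 → ball x' (8 * t) ⊆ ball 0 2 →
      ∫⁻ x in ball x' (6 * t), ENNReal.ofReal (hd y0 y1 s0 s1 x) ∂(mu G) ≤
        ENNReal.ofReal CC * (ENNReal.ofReal (t ^ 3) * bt G x' t + ENNReal.ofReal (t * J ^ 2))) :
    (∫⁻ x in {x : V | x ∈ ball a (1 / 8) ∧ dl a T x < (2 * h) ^ 2},
      ENNReal.ofReal (dl a T x) ∂(mu G) ≤
      ENNReal.ofReal (3 * CC) *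
        (∫⁻ x in {x : V | rho x < h / 4 ∧ |x 2| < 3 / 8 + h}, bt G x h) +
        ENNReal.ofReal (3 * CC * J ^ 2)) ∧
    (∫⁻ x in ball a (1 / 8), ENNReal.ofReal (dl a T x) ∂(mu G) ≤
      ENNReal.ofReal CC * bt G x₁ (1 / 8) + ENNReal.ofReal (CC / 8 * J ^ 2)) := by
  have hJ2 : 0 ≤ J ^ 2 := sq_nonneg J
  have hbase : ∀ y : V, ∀ t : ℝ, h ≤ t → t ≤ 1 / 8 → rho y ≤ t / 4 → |y 2| + 2 * t + t / 4 ≤ 3 / 8 →
      ∫⁻ x in ball y (6 * t), ENNReal.ofReal (hd y0 y1 s0 s1 x) ∂(mu G) ≤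
        ENNReal.ofReal CC * (ENNReal.ofReal (t ^ 3) * bt G y t + ENNReal.ofReal (t * J ^ 2)) := by
    intro y t ht1 ht2 hy1 hy2
    refine hC y t ht1 ht2 hy1 hy2 ?_
    intro x hx
    rw [mem_ball_zero_iff]
    have h1 : dist x y < 8 * t := hx
    rw [dist_eq_norm] at h1
    have h2 := nrm_le y
    have h3 : ‖x‖ ≤ ‖x - y‖ + ‖y‖ := by
      have := norm_add_le (x - y) y
      simpa using this
    have h4 := abs_nonneg (y 2)
    linarith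
  constructor
  · refine le_trans ?_ (part_h hAVC G h CC (J ^ 2) y0 y1 s0 s1 hh hh1 hCC hJ2
      (fun y hy1 hy2 => hbase y h le_rfl (by linarith) hy1.le (by linarith)))
    exact (lintegral_mono_set (set_h a T y0 y1 s0 s1 h hh ha2 hy hs hlin)).trans
      (lintegral_mono (fun x => ENNReal.ofReal_le_ofReal (hlin x).2.1))
  · have h1 : ∫⁻ x in ball a (1 / 8), ENNReal.ofReal (dl a T x) ∂(mu G) ≤
        ∫⁻ x in ball x₁ (6 * (1 / 8)), ENNReal.ofReal (hd y0 y1 s0 s1 x) ∂(mu G) := by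
      refine (lintegral_mono_set ?_).trans
        (lintegral_mono (fun x => ENNReal.ofReal_le_ofReal (hlin x).2.1))
      apply ball_subset_ball'
      rw [dist_eq_norm]
      have := norm_sub_le a x₁
      linarith
    have h5 := rho_le x₁
    have h6 := z_le x₁
    refine h1.trans ((hbase x₁ (1 / 8) (by linarith) le_rfl (by linarith) (by linarith)).trans ?_)
    rw [mul_add]
    refine add_le_add ?_ (le_of_eq ?_)
    · refine mul_le_mul' le_rfl ?_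
      calc ENNReal.ofReal ((1 / 8) ^ 3) * bt G x₁ (1 / 8) ≤ ENNReal.ofReal 1 * bt G x₁ (1 / 8) :=
            mul_le_mul' (ENNReal.ofReal_le_ofReal (by norm_num)) le_rfl
        _ = _ := by simp
    · rw [← ENNReal.ofReal_mul hCC]
      congr 1; ring

/-- The two conclusions from the bound of the second moment. -/
theorem two_concl {m : ℕ} (G : V → V →L[ℝ] E m) [IsFiniteMeasure (mu G)]
    (a T x₀ x₁ : V) (y0 y1 s0 s1 h σ C₀ : ℝ) (hh : 0 < h) (hhσ : 64 * h ≤ σ) (hσ : σ ≤ 1 / 256)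
    (hT : ‖T‖ = 1) (hna : ‖a‖ ≤ h / 50)
    (hy : |y0| + |y1| ≤ h / 50) (hs : |s0| + |s1| ≤ h / 50) (hx₀ : ‖x₀‖ < σ)
    (hlin : ∀ x : V, 0 ≤ hd y0 y1 s0 s1 x ∧ dl a T x ≤ hd y0 y1 s0 s1 x ∧
      hd y0 y1 s0 s1 x ≤ 2 * dl a T x)
    (hX : ENNReal.ofReal ((σ ^ 3)⁻¹) * ∫⁻ x in ball a (10 * σ), ENNReal.ofReal (dl a T x) ∂(mu G) ≤
      Rl G C₀ σ h x₁) :
    bt G x₀ σ ≤ Rl G (2 ^ 23 * C₀) σ h x₁ ∧
      (σ / 64 ≤ rho x₀ → ENNReal.ofReal (th G x₀ (σ / 128)) ≤ Rl G (2 ^ 23 * C₀) σ h x₁) := by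
  have hσ0 : 0 < σ := by linarith
  have hmul : Rl G (2 ^ 23 * C₀) σ h x₁ = ENNReal.ofReal (2 ^ 23) * Rl G C₀ σ h x₁ := by
    unfold Rl
    rw [ENNReal.ofReal_mul (by positivity), mul_assoc]
  have hone : Rl G C₀ σ h x₁ ≤ Rl G (2 ^ 23 * C₀) σ h x₁ := by
    rw [hmul]
    calc Rl G C₀ σ h x₁ = ENNReal.ofReal 1 * Rl G C₀ σ h x₁ := by simp
      _ ≤ _ := mul_le_mul' (ENNReal.ofReal_le_ofReal (by norm_num)) le_rfl
  constructor
  · refine le_trans ?_ (hX.trans hone)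
    unfold bt
    refine iInf_le_of_le a (iInf_le_of_le T (iInf_le_of_le hT ?_))
    refine mul_le_mul' le_rfl (lintegral_mono_set ?_)
    apply ball_subset_ball'
    rw [dist_eq_norm]
    have := norm_sub_le x₀ a
    linarith
  · intro hq
    rw [hmul]
    refine far_mass G σ hσ0 x₀ _ _ ?_ hX
    rw [← setLIntegral_const]
    refine (setLIntegral_mono' measurableSet_ball ?_).trans
      (lintegral_mono_set (ball_subset_ball' ?_))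
    · intro x hx
      exact ENNReal.ofReal_le_ofReal
        (far_pt a T x₀ y0 y1 s0 s1 h σ hh hhσ hσ hy hs hlin hx₀ hq x hx)
    · rw [dist_eq_norm]
      have := norm_sub_le x₀ a
      linarith

theorem pf_LO1 (hMUF : T_MUF) (hFRM : T_FRM) (hLIN : T_LIN) (hCMP : T_CMP) (hANB : T_ANB)
    (hAVC : T_AVC) (hQNT : T_QNT) (hKLN : T_KLN) : Pool.Agent.H87.D3.T_LO1 := by
  intro m L Λ ε e hL hΛ hε he heΛ hEP
  have hc : 0 < e / 256 := by positivity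
  obtain ⟨CA, hCA, hA⟩ := hANB Λ (e / 256) hΛ hc
  obtain ⟨CC, hCC, hCm⟩ := hCMP Λ (e / 256) hΛ hc
  obtain ⟨δK, CK, hδK, hCK, hK⟩ := hKLN L hL
  obtain ⟨CM, hCM, hF⟩ := hFRM
  refine ⟨2 ^ 23 * (CK * (3 * CC + 1)), by positivity, ?_⟩
  intro σ h hh hhσ hσ
  have hσ0 : 0 < σ := by linarith
  have hh1 : h ≤ 1 / 64 := by linarith
  have hκ : 0 < 1 / Real.sqrt (h * σ ^ 5) := by positivity
  have hτ : 0 ≤ Real.sqrt σ := Real.sqrt_nonneg _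
  obtain ⟨δ₂, hδ₂, hδ₂'⟩ := choose_d2 (1 / Real.sqrt (h * σ ^ 5)) (Real.sqrt σ) CC
    ((CM / h) ^ 2 * (3 * CA / h ^ 2)) hκ hτ hCC (by positivity)
  obtain ⟨rc, K, om, hrc, hrch, hrc2, hom, hF2⟩ := hF m L Λ ε e (δK / 2) δ₂ σ h hL hΛ hε he heΛ
    (by positivity) hδ₂ hh hhσ hσ
  clear hF
  refine ⟨K, om, hom, ?_⟩
  intro U u G hSM D x₀ hFr
  obtain ⟨hU, hThn, hIn0, hIn1, mb, y0, y1, s0, s1, hmb, hy, hs, hCen⟩ := hF2 U u G hSM D x₀ hFr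
  clear hF2
  obtain ⟨hQ1, hQ2⟩ := hQNT m L Λ ε e hEP he U u G hSM h rc (e / 256) hh hh1 hrc (by linarith)
    hc hrc2 hThn
  have hs2 : s0 ^ 2 + s1 ^ 2 ≤ 1 := by
    have a0 := abs_nonneg s0
    have a1 := abs_nonneg s1
    have a2 : |s0| ≤ 1 / 2 := by linarith
    have a3 : |s1| ≤ 1 / 2 := by linarith
    have a4 : s0 ^ 2 ≤ (1 / 2) ^ 2 := by
      rw [← sq_abs]; exact pow_le_pow_left₀ a0 a2 2
    have a5 : s1 ^ 2 ≤ (1 / 2) ^ 2 := by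
      rw [← sq_abs]; exact pow_le_pow_left₀ a1 a3 2
    linarith
  obtain ⟨a, T, hT, ha0, ha1, ha2, hlin⟩ := hLIN y0 y1 s0 s1 hs2
  have hx₀ := hFr.x0
  refine ⟨fun x hx hz => hQ1 x (2 * h) le_rfl (by linarith) (by linarith) (by linarith),
    fun x hx => ?_, ?_⟩
  · have hx' : ‖x‖ < 1 / 64 := by simpa using hx
    have h1 := rho_le x
    have h2 := z_le x
    exact hQ1 x (1 / 8) (by linarith) le_rfl (by linarith) (by linarith)
  intro x₁ hx₁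
  have hx₁' : ‖x₁‖ < 1 / 64 := by simpa using hx₁
  have hM := hMUF m G hSM.gd.memG
  have hfin : IsFiniteMeasure (mu G) := ⟨lt_top_iff_ne_top.2 hM.1⟩
  have hna : ‖a‖ ≤ h / 50 := base_norm a y0 y1 h ha0 ha1 ha2 hy
  have hJ0 : 0 ≤ CM / h * In G h (3 / 8) := mul_nonneg (by positivity) hIn0
  obtain ⟨hVh, hV1⟩ := two_windows hAVC G a T x₁ y0 y1 s0 s1 h CC (CM / h * In G h (3 / 8)) hh hh1
    hCC ha2 hna hy hs hx₁' hlin
    (hCm m G hSM.gd h rc _ mb y0 y1 s0 s1 hh hh1 hrc hrch hJ0 hmb hy hs hCen hThn)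
  have hI2 : ENNReal.ofReal (In G h (3 / 8)) ≤ ENNReal.ofReal (3 * CA / h ^ 2) *
      ∫⁻ x in {x : V | rho x < h / 4 ∧ |x 2| < 3 / 8 + h}, bt G x h := by
    rw [ann_eq G h hh1 hM.2.2.2.1]
    exact part_I hAVC G h CA hh hh1 hCA (fun y hy1 hy2 =>
      hA m G hSM.gd h rc hh hh1 hrc hrch hThn y hy1 hy2)
  have hJB := err_term (3 * CC * (1 / Real.sqrt (h * σ ^ 5)) + Real.sqrt σ * (CC / 8)) CM h δ₂
    (CM / h * In G h (3 / 8)) (In G h (3 / 8)) CA (1 / Real.sqrt (h * σ ^ 5)) _ (by positivity)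
    hδ₂ rfl hIn0 hIn1 hI2 hδ₂'
  have hX : ENNReal.ofReal ((σ ^ 3)⁻¹) * ∫⁻ x in ball a (10 * σ), ENNReal.ofReal (dl a T x) ∂(mu G) ≤
      Rl G (CK * (3 * CC + 1)) σ h x₁ :=
    final_sum _ _ CK CC _ _ (bt G x₁ (1 / 8)) _ _ _ hκ hτ hCK hCC (sq_nonneg _) hJB
      hVh hV1 (hK m Λ ε U u G hSM a T σ h hT (by linarith) hh (by linarith) (by linarith)
        (fun x hx hdl => cond_K u U a T y0 y1 s0 s1 h rc δK hh hrch hy hs hlin hU x hx hdl))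
  obtain ⟨h1, h2⟩ := two_concl G a T x₀ x₁ y0 y1 s0 s1 h σ _ hh hhσ hσ hT hna hy hs hx₀ hlin hX
  exact ⟨h1, fun hth => h2 (hQ2 x₀ σ (by linarith) (by linarith) hx₀ hth)⟩

end

end Pool.Agent.H90.D3
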